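import Pool.Agent.Helper273_LT.Main
import Pool.Agent.Helper273_LT.Stmt

namespace Pool.Agent.Results.MP_f4f39d_al.Classification

open Matrix Pool.Agent.Helper273_LT

/-- Q1: all matrices `X` for which `(A, A*, X)` is a Leonard triple on `K^(d+1)`. Here
`kA K d` is `A` and `kD K d` is `A*`. -/
theorem result {K : Type*} [Field K] [IsAlgClosed K] [CharZero K] (d : ℕ)
    (X : Matrix (Fin (d + 1)) (Fin (d + 1)) K) :
    IsLeonardTriple (kA K d) (kD K d) X ↔
      d = 0 ∨ InFamily d X ∨ (d = 2 ∧ InExtra d X) := by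
  rcases Nat.eq_zero_or_pos d with h0 | hd
  · subst h0
    refine ⟨fun _ => Or.inl rfl, fun _ => ?_⟩
    have hd : ∀ M : Matrix (Fin (0 + 1)) (Fin (0 + 1)) K, M.IsDiag := fun M i j hij =>
      absurd (Fin.ext (by omega)) hij
    have hi : ∀ M : Matrix (Fin (0 + 1)) (Fin (0 + 1)) K, IrrTridiag M := fun M =>
      ⟨fun i j hij => by omega, fun i j hij => by omega⟩
    have ha : ∀ A B C : Matrix (Fin (0 + 1)) (Fin (0 + 1)) K, Adapted A B C := fun A B C =>
      ⟨Pi.basisFun K (Fin (0 + 1)), hd _, hi _, hi _⟩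
    exact ⟨ha _ _ _, ha _ _ _, ha _ _ _⟩
  · have e1 : ∀ α x y z : K, lin5 d α x y z 0 = fam d α x y z := by
      intro α x y z; unfold lin5 lin3 kB fam lieComm; module
    have e2 : ∀ α z t : K, lin5 d α 0 0 z t = extra d α z t := by
      intro α z t; unfold lin5 lin3 kB kQ extra lieComm anti; module
    constructor
    · intro h
      right
      rcases converse hd h with ⟨α, x, y, z, h1, h2, h3, h4⟩ | ⟨h1, α, z, t, h2, h3⟩
      · left; exact ⟨α, x, y, z, h1, h2, h3, by rw [h4, e1]⟩
      · right; exact ⟨h1, α, z, t, h2, by rw [h3, e2]⟩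
    · rintro (h | ⟨α, x, y, z, h1, h2, h3, h4⟩ | ⟨h1, α, z, t, h2, h3⟩)
      · omega
      · rw [h4]
        have h5 := family_isLeonardTriple hd α x y z h1 h2 h3
        have h6 : α • (1 : Matrix (Fin (d + 1)) (Fin (d + 1)) K) + lin3 d x y z =
            fam d α x y z := by
          unfold lin3 kB fam lieComm; module
        rwa [h6] at h5
      · subst h1
        rw [h3, ← e2]
        exact extra_isLeonardTriple h2

end Pool.Agent.Results.MP_f4f39d_al.Classification
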