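import Pool.Agent.Helper273_LT.Main
import Pool.Agent.Helper273_LT.Stmt

namespace Pool.Agent.Results.MP_f4f39d_al.CommutatorSpan

open Matrix Pool.Agent.Helper273_LT

theorem mem_fourSpan {K : Type*} [Field K] {d : ℕ}
    (X M : Matrix (Fin (d + 1)) (Fin (d + 1)) K) :
    M ∈ fourSpan X ↔ ∃ a b c e : K, M = a • 1 + b • kA K d + c • kD K d + e • X := by
  unfold fourSpan
  rw [Submodule.mem_span_insert]
  constructor
  · rintro ⟨a, N, hN, rfl⟩
    rw [Submodule.mem_span_triple] at hN
    obtain ⟨b, c, e, rfl⟩ := hN
    exact ⟨a, b, c, e, by module⟩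
  · rintro ⟨a, b, c, e, rfl⟩
    refine ⟨a, b • kA K d + c • kD K d + e • X, ?_, by module⟩
    rw [Submodule.mem_span_triple]
    exact ⟨b, c, e, rfl⟩

/-- `[A, A*]` is not a combination of `I, A, A*` -/
theorem comm_not_mem {K : Type*} [Field K] [CharZero K] {d : ℕ} (hd : 1 ≤ d) {a b c : K}
    (h : kB K d = a • 1 + b • kA K d + c • kD K d) : False := by
  have h1 := ent_congr h 0 1
  have h2 := ent_congr h 1 0
  rw [ent_kB, ent_add, ent_add, ent_smul, ent_smul, ent_smul] at h1 h2
  have a01 : ent (kA K d) 0 1 = d := by
    have := ent_kA_up (K := K) (d := d) 0 (by omega) (by omega)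
    simpa using this
  have a10 : ent (kA K d) 1 0 = 1 := by
    have := ent_kA_down (K := K) (d := d) 1 (by omega) (by omega)
    simpa using this
  rw [a01, ent_one_off 0 1 (by omega), ent_kD_off 0 1 (by omega)] at h1
  rw [a10, ent_one_off 1 0 (by omega), ent_kD_off 1 0 (by omega)] at h2
  push_cast at h1 h2
  have d0 : (d : K) ≠ 0 := Nat.cast_ne_zero.2 (by omega)
  have h3 : b = -2 := by
    apply mul_right_cancel₀ d0
    linear_combination -h1
  have h4 : b = 2 := by linear_combination -h2
  rw [h3] at h4
  norm_num at h4

theorem fam_eq {K : Type*} [Field K] {d : ℕ} (α x y z : K) :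
    fam d α x y z = α • 1 + x • kA K d + y • kD K d +
        z • (kA K d * kD K d - kD K d * kA K d) := rfl

theorem inSpan_iff {K : Type*} [Field K] {d : ℕ}
    (X M : Matrix (Fin (d + 1)) (Fin (d + 1)) K) : InSpan X M ↔ M ∈ fourSpan X := Iff.rfl

theorem lieComm_eq {K : Type*} [Field K] {n : ℕ} (X Y : Matrix (Fin n) (Fin n) K) :
    lieComm X Y = X * Y - Y * X := rfl

/-- Q2: for a Leonard triple `(A, A*, X)` with `d ≥ 1` the three commutators lie in the span of
`I, A, A*, X` exactly when `X = α I + x A + y A* + z [A, A*]` with `z ≠ 0`; and for every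
`d ≥ 1` there is a Leonard triple with `[A, A*]` outside that span (namely `X = A + A*`). -/
theorem result {K : Type*} [Field K] [IsAlgClosed K] [CharZero K] (d : ℕ) (hd : 1 ≤ d) :
    (∀ X : Matrix (Fin (d + 1)) (Fin (d + 1)) K, IsLeonardTriple (kA K d) (kD K d) X →
      ((InSpan X (lieComm (kA K d) (kD K d)) ∧ InSpan X (lieComm (kD K d) X) ∧
        InSpan X (lieComm X (kA K d))) ↔
      ∃ α x y z : K, z ≠ 0 ∧ X = fam d α x y z)) ∧
    (IsLeonardTriple (kA K d) (kD K d) (kA K d + kD K d) ∧
      ¬ InSpan (kA K d + kD K d) (lieComm (kA K d) (kD K d))) := by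
  simp only [inSpan_iff, lieComm_eq, fam_eq]
  constructor
  · intro X hX
    constructor
    · rintro ⟨h1, -, -⟩
      rw [mem_fourSpan] at h1
      obtain ⟨a, b, c, e, h1⟩ := h1
      rcases converse hd hX with ⟨α, x, y, z, h2, h3, h4, rfl⟩ | ⟨rfl, α, z, t, h2, rfl⟩
      · refine ⟨α, x, y, z, ?_, by unfold lin5 lin3 kB; module⟩
        rintro rfl
        apply comm_not_mem (K := K) hd (a := a + e * α) (b := b + e * x) (c := c + e * y)
        rw [kB, h1]
        unfold lin5 lin3
        module
      · by_cases ht : t = 0
        · subst ht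
          refine ⟨α, 0, 0, z, ?_, by unfold lin5 lin3 kB; module⟩
          rintro rfl
          exact h2 (by ring)
        · exfalso
          rw [lin5_two, kA_two, kD_two] at h1
          have g1 := congrFun (congrFun h1 0) 1
          have g2 := congrFun (congrFun h1 1) 0
          have g3 := congrFun (congrFun h1 1) 2
          simp at g1 g2 g3
          have hb : b = 0 := by linear_combination (-1 / 2 : K) * g2 + (-1 / 2 : K) * g3
          have he : (8 * t) * e = 0 := by
            linear_combination -g1 - 2 * g2 - 4 * hb
          have he0 := (mul_eq_zero.1 he).resolve_left (mul_ne_zero (by norm_num) ht)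
          rw [hb, he0] at g2
          norm_num at g2
    · rintro ⟨α, x, y, z, hz, rfl⟩
      have hB : kB K d ∈ fourSpan (α • 1 + x • kA K d + y • kD K d +
          z • (kA K d * kD K d - kD K d * kA K d)) := by
        rw [mem_fourSpan]
        refine ⟨-α / z, -x / z, -y / z, 1 / z, ?_⟩
        have : kA K d * kD K d - kD K d * kA K d = kB K d := rfl
        rw [this]
        match_scalars <;> field_simp <;> ring
      have hA : kA K d ∈ fourSpan (α • 1 + x • kA K d + y • kD K d +
          z • (kA K d * kD K d - kD K d * kA K d)) := by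
        rw [mem_fourSpan]; exact ⟨0, 1, 0, 0, by module⟩
      have hD : kD K d ∈ fourSpan (α • 1 + x • kA K d + y • kD K d +
          z • (kA K d * kD K d - kD K d * kA K d)) := by
        rw [mem_fourSpan]; exact ⟨0, 0, 1, 0, by module⟩
      refine ⟨hB, ?_, ?_⟩
      · have : kD K d * (α • 1 + x • kA K d + y • kD K d +
            z • (kA K d * kD K d - kD K d * kA K d)) - (α • 1 + x • kA K d + y • kD K d +
            z • (kA K d * kD K d - kD K d * kA K d)) * kD K d =
            (-x) • kB K d + (-4 * z) • kA K d := by
          have h := rDB (K := K) (d := d)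
          unfold kB at h ⊢
          simp only [mul_add, add_mul, mul_sub, sub_mul, mul_smul_comm, smul_mul_assoc, mul_one,
            one_mul, mul_assoc] at h ⊢
          linear_combination (norm := module) z • h
        rw [this]
        exact Submodule.add_mem _ (Submodule.smul_mem _ _ hB) (Submodule.smul_mem _ _ hA)
      · have : (α • 1 + x • kA K d + y • kD K d +
            z • (kA K d * kD K d - kD K d * kA K d)) * kA K d - kA K d *
            (α • 1 + x • kA K d + y • kD K d +
            z • (kA K d * kD K d - kD K d * kA K d)) =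
            (-y) • kB K d + (-4 * z) • kD K d := by
          have h := rAB (K := K) (d := d)
          unfold kB at h ⊢
          simp only [mul_add, add_mul, mul_sub, sub_mul, mul_smul_comm, smul_mul_assoc, mul_one,
            one_mul, mul_assoc] at h ⊢
          linear_combination (norm := module) (-z) • h
        rw [this]
        exact Submodule.add_mem _ (Submodule.smul_mem _ _ hB) (Submodule.smul_mem _ _ hD)
  · constructor
    · have h := family_isLeonardTriple (K := K) hd 0 1 1 0 (by norm_num) (by norm_num)
        (by norm_num)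
      have h2 : (0 : K) • (1 : Matrix (Fin (d + 1)) (Fin (d + 1)) K) + lin3 d 1 1 0 =
          kA K d + kD K d := by
        unfold lin3; module
      rwa [h2] at h
    · intro h
      rw [mem_fourSpan] at h
      obtain ⟨a, b, c, e, h⟩ := h
      apply comm_not_mem (K := K) hd (a := a) (b := b + e) (c := c + e)
      rw [kB, h]
      module

end Pool.Agent.Results.MP_f4f39d_al.CommutatorSpan
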